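import Pool.Agent.Y624.SC.Stm

/-! Project SC (helper624), job FUN: positive functionals on closed convex cones. -/

set_option autoImplicit false

namespace Pool.Agent.Y888.SC.FUN

open Set

theorem exists_pos (V : Type) [NormedAddCommGroup V] [NormedSpace ℝ V]
    (C : Set V) (hcl : IsClosed C) (h0 : (0 : V) ∈ C) (hadd : ∀ x ∈ C, ∀ y ∈ C, x + y ∈ C)
    (hsm : ∀ a : ℝ, 0 ≤ a → ∀ x ∈ C, a • x ∈ C) (hl : ∀ x ∈ C, -x ∈ C → x = 0) :
    ∀ x ∈ C, x ≠ 0 → ∃ f : V →L[ℝ] ℝ, (∀ c ∈ C, 0 ≤ f c) ∧ 0 < f x := by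
  intro x hx hx0
  have hconv : Convex ℝ C := by
    intro y hy z hz a b ha hb _
    exact hadd _ (hsm a ha y hy) _ (hsm b hb z hz)
  have hnx : -x ∉ C := fun h => hx0 (hl x hx h)
  obtain ⟨f, u, h1, h2⟩ := geometric_hahn_banach_point_closed hconv hcl hnx
  have hu : u < 0 := by
    have := h2 0 h0
    rwa [map_zero] at this
  have hnn : ∀ c ∈ C, 0 ≤ f c := by
    intro c hc
    by_contra hneg
    rw [not_le] at hneg
    have h3 := h2 ((u / f c) • c) (hsm _ (div_nonneg_of_nonpos hu.le hneg.le) c hc)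
    rw [map_smul, smul_eq_mul, div_mul_cancel₀ _ hneg.ne] at h3
    exact lt_irrefl _ h3
  refine ⟨f, hnn, ?_⟩
  rw [map_neg] at h1
  linarith

theorem done : Pool.Agent.Y624.SC.S_FUN := by
  classical
  intro V _ _ _ C hcl h0 hadd hsm hl hne
  have key : ∃ f : V →L[ℝ] ℝ, f ≠ 0 ∧ ∀ x ∈ C, x ≠ 0 → 0 < f x := by
    have hK : IsCompact (C ∩ Metric.sphere (0 : V) 1) :=
      (isCompact_sphere (0 : V) 1).inter_left hcl
    have hF : ∀ x ∈ C ∩ Metric.sphere (0 : V) 1, ∃ f : V →L[ℝ] ℝ,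
        (∀ c ∈ C, 0 ≤ f c) ∧ 0 < f x := by
      intro x hx
      refine exists_pos V C hcl h0 hadd hsm hl x hx.1 ?_
      rintro rfl
      have := hx.2
      simp at this
    choose! F hF1 hF2 using hF
    obtain ⟨t, ht1, ht2⟩ := hK.elim_nhds_subcover (fun x => {y | 0 < F x y}) (by
      intro x hx
      exact (isOpen_lt continuous_const (F x).continuous).mem_nhds (hF2 x hx))
    have hpos : ∀ x ∈ C, x ≠ 0 → 0 < (∑ y ∈ t, F y) x := by
      intro x hx hx0
      have hn : 0 < ‖x‖ := norm_pos_iff.2 hx0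
      have hmem : ‖x‖⁻¹ • x ∈ C ∩ Metric.sphere (0 : V) 1 := by
        refine ⟨hsm _ (by positivity) x hx, ?_⟩
        rw [mem_sphere_zero_iff_norm, norm_smul, norm_inv, norm_norm, inv_mul_cancel₀ hn.ne']
      have h1 := ht2 hmem
      rw [mem_iUnion₂] at h1
      obtain ⟨y, hy, hyx⟩ := h1
      have h2 : 0 < F y x := by
        have h3 : 0 < F y (‖x‖⁻¹ • x) := hyx
        rw [map_smul, smul_eq_mul] at h3
        exact (mul_pos_iff_of_pos_left (inv_pos.2 hn)).1 h3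
      rw [ContinuousLinearMap.sum_apply]
      exact Finset.sum_pos' (fun z hz => hF1 z (ht1 z hz) x hx) ⟨y, hy, h2⟩
    by_cases hC : ∃ x ∈ C, x ≠ 0
    · obtain ⟨x, hx, hx0⟩ := hC
      refine ⟨_, ?_, hpos⟩
      intro h
      have := hpos x hx hx0
      rw [h] at this
      simp at this
    · obtain ⟨x, hx⟩ := hne
      obtain ⟨f, hf⟩ := SeparatingDual.exists_ne_zero (R := ℝ) hx
      refine ⟨f, ?_, fun y hy hy0 => absurd ⟨y, hy, hy0⟩ hC⟩
      rintro rfl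
      exact hf rfl
  obtain ⟨f, hf, hpos⟩ := key
  refine ⟨f, hf, hpos, ?_⟩
  have h1 : (f : V →ₗ[ℝ] ℝ) ≠ 0 := by
    intro h
    apply hf
    ext x
    exact LinearMap.congr_fun h x
  exact Module.Dual.finrank_ker_add_one_of_ne_zero h1

end Pool.Agent.Y888.SC.FUN
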